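import Pool.Agent.T9h32.SV.Tor

/-!
# Solvable Lie algebras in characteristic two (helper32)
-/

set_option autoImplicit false

namespace Pool.Agent.T9h32.SV

open Matrix IsLocalRing Pool.Agent.TH831.NA Pool.Agent.R417.FK

section chains
variable {κ : Type} [Field κ]

/-- a chain of subspaces with `[V i, V i] ⊆ V (i + 1)`, ending with zero -/
def SolvIn {n : ℕ} (S : Set (Matrix (Fin n) (Fin n) κ)) : Prop :=
  ∃ (V : ℕ → Submodule κ (Matrix (Fin n) (Fin n) κ)) (r : ℕ), S ⊆ V 0 ∧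
    (∀ i, ∀ x ∈ V i, ∀ y ∈ V i, x * y - y * x ∈ V (i + 1)) ∧ V r = ⊥

/-- a chain given by finitely many steps -/
theorem SolvIn.cons {n : ℕ} {S : Set (Matrix (Fin n) (Fin n) κ)}
    (W : Submodule κ (Matrix (Fin n) (Fin n) κ)) (hS : S ⊆ W) {T : Set (Matrix (Fin n) (Fin n) κ)}
    (hT : SolvIn T) (h : ∀ x ∈ W, ∀ y ∈ W, x * y - y * x ∈ T) : SolvIn S := by
  obtain ⟨V, r, h0, hV, hr⟩ := hT
  refine ⟨fun i => Nat.casesOn i W V, r + 1, hS, ?_, hr⟩
  intro i x hx y hy
  cases i with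
  | zero => exact h0 (h x hx y hy)
  | succ i => exact hV i x hx y hy

theorem SolvIn.mono {n : ℕ} {S T : Set (Matrix (Fin n) (Fin n) κ)} (hST : S ⊆ T) (h : SolvIn T) :
    SolvIn S := by
  obtain ⟨V, r, h0, hV, hr⟩ := h
  exact ⟨V, r, hST.trans h0, hV, hr⟩

theorem solvIn_zero {n : ℕ} : SolvIn ({0} : Set (Matrix (Fin n) (Fin n) κ)) := by
  refine ⟨fun _ => ⊥, 0, ?_, ?_, rfl⟩
  · intro x hx
    exact hx
  · intro i x hx y hy
    rw [Submodule.mem_bot] at hx hy ⊢
    rw [hx, hy, mul_zero, sub_self]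

/-- scalar matrices -/
def scal (κ : Type) [Field κ] (n : ℕ) : Submodule κ (Matrix (Fin n) (Fin n) κ) :=
  Submodule.span κ {1}

theorem solvIn_scal {n : ℕ} : SolvIn (scal κ n : Set (Matrix (Fin n) (Fin n) κ)) := by
  refine SolvIn.cons (scal κ n) (le_refl _) solvIn_zero ?_
  intro x hx y hy
  obtain ⟨a, rfl⟩ := Submodule.mem_span_singleton.1 hx
  obtain ⟨b, rfl⟩ := Submodule.mem_span_singleton.1 hy
  rw [Set.mem_singleton_iff, smul_mul_smul_comm, smul_mul_smul_comm, mul_comm a b, sub_self]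

/-- two by two matrices in characteristic two -/
theorem solvIn_two [CharP κ 2] : SolvIn (Set.univ : Set (Matrix (Fin 2) (Fin 2) κ)) := by
  have h2 : (2 : κ) = 0 := by exact_mod_cast CharP.cast_eq_zero κ 2
  refine SolvIn.cons ⊤ (fun _ _ => Submodule.mem_top)
    (T := (LinearMap.ker (Matrix.traceLinearMap (Fin 2) κ κ) :
      Set (Matrix (Fin 2) (Fin 2) κ))) ?_ ?_
  · refine SolvIn.cons (LinearMap.ker (Matrix.traceLinearMap (Fin 2) κ κ)) (le_refl _)
      (T := (scal κ 2 : Set (Matrix (Fin 2) (Fin 2) κ))) solvIn_scal ?_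
    intro x hx y hy
    have hx1 : x 1 1 = x 0 0 := by
      have h1 : x 0 0 + x 1 1 = 0 := by
        have := LinearMap.mem_ker.1 hx
        rwa [Matrix.traceLinearMap_apply, Matrix.trace_fin_two] at this
      linear_combination h1 - (x 0 0) * h2
    have hy1 : y 1 1 = y 0 0 := by
      have h1 : y 0 0 + y 1 1 = 0 := by
        have := LinearMap.mem_ker.1 hy
        rwa [Matrix.traceLinearMap_apply, Matrix.trace_fin_two] at this
      linear_combination h1 - (y 0 0) * h2
    refine Submodule.mem_span_singleton.2 ⟨x 0 1 * y 1 0 - y 0 1 * x 1 0, ?_⟩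
    ext i j
    fin_cases i <;> fin_cases j <;>
      simp [Matrix.mul_apply, Fin.sum_univ_two, hx1, hy1]
    · ring
    · ring
    · ring
    · linear_combination (x 0 1 * y 1 0 - x 1 0 * y 0 1) * h2
  · intro x _ y _
    have h3 : (x * y - y * x).trace = 0 := by
      rw [Matrix.trace_sub, Matrix.trace_mul_comm, sub_self]
    exact h3

end chains

section pfaffian
variable {κ : Type} [CommRing κ]

/-- alternating four by four matrices -/
def alt (a b c d e f : κ) : Matrix (Fin 4) (Fin 4) κ :=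
  !![0, a, b, c; -a, 0, d, e; -b, -d, 0, f; -c, -e, -f, 0]

/-- the Pfaffian adjoint -/
def star (S : Matrix (Fin 4) (Fin 4) κ) : Matrix (Fin 4) (Fin 4) κ :=
  !![0, -S 2 3, S 1 3, -S 1 2; S 2 3, 0, -S 0 3, S 0 2; -S 1 3, S 0 3, 0, -S 0 1;
    S 1 2, -S 0 2, S 0 1, 0]

/-- the polar form of the Pfaffian -/
def pol (S T : Matrix (Fin 4) (Fin 4) κ) : κ :=
  S 0 1 * T 2 3 + S 2 3 * T 0 1 - S 0 2 * T 1 3 - S 1 3 * T 0 2 + S 0 3 * T 1 2 + S 1 2 * T 0 3

/-- the Pfaffian -/
def pfa (S : Matrix (Fin 4) (Fin 4) κ) : κ := S 0 1 * S 2 3 - S 0 2 * S 1 3 + S 0 3 * S 1 2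

/-- antisymmetric with zero diagonal -/
def IsAlt (S : Matrix (Fin 4) (Fin 4) κ) : Prop := ∀ i j, S j i = - S i j ∧ S i i = 0

theorem IsAlt.eq {S : Matrix (Fin 4) (Fin 4) κ} (h : IsAlt S) :
    S = alt (S 0 1) (S 0 2) (S 0 3) (S 1 2) (S 1 3) (S 2 3) := by
  ext i j
  have h10 := (h 0 1).1
  have h20 := (h 0 2).1
  have h30 := (h 0 3).1
  have h21 := (h 1 2).1
  have h31 := (h 1 3).1
  have h32 := (h 2 3).1
  have d0 := (h 0 0).2
  have d1 := (h 1 1).2
  have d2 := (h 2 2).2
  have d3 := (h 3 3).2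
  fin_cases i <;> fin_cases j <;> simp [alt, *]

theorem star_mul_polar {S T : Matrix (Fin 4) (Fin 4) κ} (hS : IsAlt S) (hT : IsAlt T) :
    star S * T + star T * S = (pol S T) • (1 : Matrix (Fin 4) (Fin 4) κ) := by
  rw [hS.eq, hT.eq]
  ext i j
  fin_cases i <;> fin_cases j <;>
    simp [alt, star, pol, Matrix.mul_apply, Fin.sum_univ_four] <;> ring

theorem mul_star_polar {S T : Matrix (Fin 4) (Fin 4) κ} (hS : IsAlt S) (hT : IsAlt T) :
    S * star T + T * star S = (pol S T) • (1 : Matrix (Fin 4) (Fin 4) κ) := by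
  rw [hS.eq, hT.eq]
  ext i j
  fin_cases i <;> fin_cases j <;>
    simp [alt, star, pol, Matrix.mul_apply, Fin.sum_univ_four] <;> ring

theorem star_mul_self {S : Matrix (Fin 4) (Fin 4) κ} (hS : IsAlt S) :
    star S * S = (pfa S) • (1 : Matrix (Fin 4) (Fin 4) κ) := by
  rw [hS.eq]
  ext i j
  fin_cases i <;> fin_cases j <;>
    simp [alt, star, pfa, Matrix.mul_apply, Fin.sum_univ_four] <;> ring

theorem pol_self (S : Matrix (Fin 4) (Fin 4) κ) : pol S S = 2 * pfa S := by
  rw [pol, pfa]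
  ring

theorem pol_comm (S T : Matrix (Fin 4) (Fin 4) κ) : pol S T = pol T S := by
  rw [pol, pol]
  ring

end pfaffian

section gsp
variable {κ : Type} [Field κ]

theorem IsAlt.pfa_ne {B : Matrix (Fin 4) (Fin 4) κ} (hB : IsAlt B) (hu : IsUnit B.det) :
    pfa B ≠ 0 := by
  intro h0
  have h1 := star_mul_self hB
  rw [h0, zero_smul] at h1
  have h2 : star B = 0 := by
    have h3 := congrArg (fun M => M * B⁻¹) h1
    simp only [zero_mul] at h3
    rwa [mul_assoc, Matrix.mul_nonsing_inv B hu, mul_one] at h3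
  have h4 : B = 0 := by
    have e1 := congrFun (congrFun h2 1) 0
    have e2 := congrFun (congrFun h2 0) 2
    have e3 := congrFun (congrFun h2 3) 0
    have e4 := congrFun (congrFun h2 2) 1
    have e5 := congrFun (congrFun h2 1) 3
    have e6 := congrFun (congrFun h2 3) 2
    simp [star] at e1 e2 e3 e4 e5 e6
    rw [hB.eq, e1, e2, e3, e4, e5, e6]
    ext i j
    fin_cases i <;> fin_cases j <;> simp [alt]
  rw [h4, Matrix.det_zero] at hu
  exact not_isUnit_zero hu

/-- the anticommutator -/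
theorem anti {B X Y : Matrix (Fin 4) (Fin 4) κ} (hB : IsAlt B) (hu : IsUnit B.det)
    (hX : IsAlt (B * X)) (hY : IsAlt (B * Y)) :
    (pfa B) • (X * Y + Y * X) = (pol (B * X) B) • Y + (pol (B * Y) B) • X -
      (pol (B * X) (B * Y)) • (1 : Matrix (Fin 4) (Fin 4) κ) := by
  have hπ := hB.pfa_ne hu
  have hself := star_mul_self hB
  have e1 : ∀ Z : Matrix (Fin 4) (Fin 4) κ, star B * (B * Z) = (pfa B) • Z := by
    intro Z
    rw [← mul_assoc, hself, smul_mul_assoc, one_mul]
  have e2 : ∀ Z W : Matrix (Fin 4) (Fin 4) κ, IsAlt (B * Z) →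
      (pfa B) • ((pfa B) • (Z * W)) = (pfa B) • ((pol (B * Z) B) • W) -
        (pfa B) • (star (B * Z) * (B * W)) := by
    intro Z W hZ
    have h1 : (pfa B) • ((pfa B) • (Z * W)) = star B * ((B * Z) * star B) * (B * W) := by
      rw [show star B * ((B * Z) * star B) * (B * W) =
        (star B * (B * Z)) * (star B * (B * W)) by simp only [mul_assoc], e1, e1, smul_mul_smul_comm,
        smul_smul]
    have h2 : (B * Z) * star B = (pol (B * Z) B) • 1 - B * star (B * Z) := by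
      rw [← mul_star_polar hZ hB, add_sub_cancel_right]
    rw [h1, h2, mul_sub, sub_mul, mul_smul_comm, mul_one, smul_mul_assoc, e1, ← mul_assoc (star B),
      hself, smul_mul_assoc, one_mul, smul_mul_assoc, smul_comm]
  have h3 : (pfa B) • ((pfa B) • (X * Y + Y * X)) = (pfa B) •
      ((pol (B * X) B) • Y + (pol (B * Y) B) • X -
      (pol (B * X) (B * Y)) • (1 : Matrix (Fin 4) (Fin 4) κ)) := by
    rw [smul_add, smul_add, e2 X Y hX, e2 Y X hY, ← star_mul_polar hX hY, smul_sub, smul_add,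
      smul_add]
    abel
  have h4 := congrArg (fun M => (pfa B)⁻¹ • M) h3
  simp only [smul_smul, inv_mul_cancel_left₀ hπ, inv_mul_cancel₀ hπ, one_smul] at h4
  exact h4

variable (B : Matrix (Fin 4) (Fin 4) κ)

/-- alternating elements -/
def W2 : Submodule κ (Matrix (Fin 4) (Fin 4) κ) where
  carrier := {X | IsAlt (B * X)}
  add_mem' := by
    intro x y hx hy i j
    rw [mul_add]
    simp only [Matrix.add_apply]
    rw [(hx i j).1, (hy i j).1, (hx i j).2, (hy i j).2]
    exact ⟨by ring, by ring⟩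
  zero_mem' := by
    intro i j
    rw [mul_zero]
    simp
  smul_mem' := by
    intro c x hx i j
    rw [mul_smul_comm]
    simp only [Matrix.smul_apply, smul_eq_mul]
    rw [(hx i j).1, (hx i j).2]
    exact ⟨by ring, by ring⟩

/-- alternating elements with trace zero -/
def W3 : Submodule κ (Matrix (Fin 4) (Fin 4) κ) where
  carrier := {X | IsAlt (B * X) ∧ pol (B * X) B = 0}
  add_mem' := by
    intro x y hx hy
    refine ⟨(W2 B).add_mem hx.1 hy.1, ?_⟩
    have h1 := hx.2
    have h2 := hy.2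
    rw [mul_add]
    rw [pol] at h1 h2 ⊢
    simp only [Matrix.add_apply]
    linear_combination h1 + h2
  zero_mem' := by
    refine ⟨(W2 B).zero_mem, ?_⟩
    rw [mul_zero, pol]
    simp
  smul_mem' := by
    intro c x hx
    refine ⟨(W2 B).smul_mem c hx.1, ?_⟩
    have h1 := hx.2
    rw [mul_smul_comm]
    rw [pol] at h1 ⊢
    simp only [Matrix.smul_apply, smul_eq_mul]
    linear_combination c * h1

/-- symmetric elements -/
def W1 : Submodule κ (Matrix (Fin 4) (Fin 4) κ) where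
  carrier := {X | (B * X)ᵀ = B * X}
  add_mem' := by
    intro x y hx hy
    show (B * (x + y))ᵀ = B * (x + y)
    rw [mul_add, Matrix.transpose_add, hx, hy]
  zero_mem' := by
    show (B * 0)ᵀ = B * 0
    rw [mul_zero, Matrix.transpose_zero]
  smul_mem' := by
    intro c x hx
    show (B * (c • x))ᵀ = B * (c • x)
    rw [mul_smul_comm, Matrix.transpose_smul, hx]

/-- the Lie algebra of the similitudes -/
def W0 : Submodule κ (Matrix (Fin 4) (Fin 4) κ) where
  carrier := {X | ∃ c : κ, Xᵀ * B + B * X = c • B}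
  add_mem' := by
    rintro x y ⟨c, hc⟩ ⟨d, hd⟩
    refine ⟨c + d, ?_⟩
    rw [Matrix.transpose_add, add_mul, mul_add, add_smul, ← hc, ← hd]
    abel
  zero_mem' := ⟨0, by rw [Matrix.transpose_zero, zero_mul, mul_zero, add_zero, zero_smul]⟩
  smul_mem' := by
    rintro a x ⟨c, hc⟩
    refine ⟨a * c, ?_⟩
    rw [Matrix.transpose_smul, smul_mul_assoc, mul_smul_comm, ← smul_add, hc, smul_smul]

variable {B}

theorem solvIn_W2 [CharP κ 2] (hB : IsAlt B) (hu : IsUnit B.det) :
    SolvIn (W2 B : Set (Matrix (Fin 4) (Fin 4) κ)) := by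
  have h2 : (2 : κ) = 0 := by exact_mod_cast CharP.cast_eq_zero κ 2
  have hπ := hB.pfa_ne hu
  have hcomm : ∀ X Y : Matrix (Fin 4) (Fin 4) κ, IsAlt (B * X) → IsAlt (B * Y) →
      X * Y - Y * X = (pfa B)⁻¹ • ((pol (B * X) B) • Y + (pol (B * Y) B) • X -
      (pol (B * X) (B * Y)) • (1 : Matrix (Fin 4) (Fin 4) κ)) := by
    intro X Y hX hY
    rw [← anti hB hu hX hY, smul_smul, inv_mul_cancel₀ hπ, one_smul, sub_eq_add_neg]
    congr 1
    ext i j
    rw [Matrix.neg_apply]
    linear_combination (-((Y * X) i j)) * h2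
  refine SolvIn.cons (W2 B) (le_refl _) (T := (W3 B : Set (Matrix (Fin 4) (Fin 4) κ))) ?_ ?_
  · refine SolvIn.cons (W3 B) (le_refl _) (T := (scal κ 4 : Set (Matrix (Fin 4) (Fin 4) κ)))
      solvIn_scal ?_
    intro X hX Y hY
    rw [hcomm X Y hX.1 hY.1, hX.2, hY.2, zero_smul, zero_smul, add_zero, zero_sub, smul_neg,
      smul_smul, ← neg_smul]
    exact Submodule.mem_span_singleton.2 ⟨_, rfl⟩
  · intro X hX Y hY
    have hX' : IsAlt (B * X) := hX
    have hY' : IsAlt (B * Y) := hY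
    have h1 : B * (X * Y - Y * X) = (pfa B)⁻¹ • ((pol (B * X) B) • (B * Y) +
        (pol (B * Y) B) • (B * X) - (pol (B * X) (B * Y)) • B) := by
      rw [hcomm X Y hX' hY', mul_smul_comm, mul_sub, mul_add, mul_smul_comm, mul_smul_comm,
        mul_smul_comm, mul_one]
    have h1B : B ∈ {Z : Matrix (Fin 4) (Fin 4) κ | IsAlt Z} := hB
    refine ⟨?_, ?_⟩
    · rw [h1]
      intro i j
      simp only [Matrix.smul_apply, Matrix.add_apply, Matrix.sub_apply, smul_eq_mul]
      rw [(hX' i j).1, (hY' i j).1, (hB i j).1, (hX' i j).2, (hY' i j).2, (hB i j).2]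
      exact ⟨by ring, by ring⟩
    · rw [h1]
      have h3 : pol ((pfa B)⁻¹ • ((pol (B * X) B) • (B * Y) +
          (pol (B * Y) B) • (B * X) - (pol (B * X) (B * Y)) • B)) B =
          (pfa B)⁻¹ * ((pol (B * X) B) * pol (B * Y) B + (pol (B * Y) B) * pol (B * X) B -
            (pol (B * X) (B * Y)) * pol B B) := by
        generalize pol (B * X) (B * Y) = z
        generalize hx : pol (B * X) B = x
        generalize hy : pol (B * Y) B = y
        rw [← hx, ← hy]
        simp only [pol, Matrix.smul_apply, Matrix.add_apply, Matrix.sub_apply, smul_eq_mul]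
        ring
      rw [h3, pol_self]
      linear_combination ((pfa B)⁻¹ * ((pol (B * X) B) * pol (B * Y) B -
            (pol (B * X) (B * Y)) * pfa B)) * h2

theorem solvIn_W0 [CharP κ 2] (hB : IsAlt B) (hu : IsUnit B.det) :
    SolvIn (W0 B : Set (Matrix (Fin 4) (Fin 4) κ)) := by
  have h2 : (2 : κ) = 0 := by exact_mod_cast CharP.cast_eq_zero κ 2
  have hBt : Bᵀ = B := by
    ext i j
    rw [Matrix.transpose_apply, (hB i j).1]
    linear_combination (-(B i j)) * h2
  refine SolvIn.cons (W0 B) (le_refl _) (T := (W1 B : Set (Matrix (Fin 4) (Fin 4) κ))) ?_ ?_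
  · refine SolvIn.cons (W1 B) (le_refl _) (T := (W2 B : Set (Matrix (Fin 4) (Fin 4) κ)))
      (solvIn_W2 hB hu) ?_
    intro X hX Y hY
    have hX' : (B * X)ᵀ = B * X := hX
    have hY' : (B * Y)ᵀ = B * Y := hY
    have e1 : ∀ Z W : Matrix (Fin 4) (Fin 4) κ, (B * Z)ᵀ = B * Z → (B * W)ᵀ = B * W →
        (B * (Z * W))ᵀ = B * (W * Z) := by
      intro Z W hZ hW
      have e2 : Wᵀ * B = B * W := by
        rw [Matrix.transpose_mul, hBt] at hW
        exact hW
      rw [← mul_assoc, Matrix.transpose_mul, hZ, ← mul_assoc, e2, mul_assoc]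
    have e3 : ∀ i j, (B * (Y * X)) i j = (B * (X * Y)) j i := by
      intro i j
      rw [← e1 X Y hX' hY', Matrix.transpose_apply]
    intro i j
    rw [mul_sub, Matrix.sub_apply, Matrix.sub_apply, Matrix.sub_apply, e3, e3, e3]
    exact ⟨by ring, by ring⟩
  · rintro X ⟨c, hc⟩ Y ⟨d, hd⟩
    have e2 : ∀ Z : Matrix (Fin 4) (Fin 4) κ, Zᵀ * B = (B * Z)ᵀ := by
      intro Z
      rw [Matrix.transpose_mul, hBt]
    have hX : (B * X)ᵀ = c • B - B * X := by
      rw [← e2, ← hc, add_sub_cancel_right]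
    have hY : (B * Y)ᵀ = d • B - B * Y := by
      rw [← e2, ← hd, add_sub_cancel_right]
    have e4 : ∀ (Z W : Matrix (Fin 4) (Fin 4) κ) (s t : κ), (B * Z)ᵀ = s • B - B * Z →
        (B * W)ᵀ = t • B - B * W →
        (B * (Z * W))ᵀ = (s * t) • B - s • (B * W) - t • (B * Z) + B * (W * Z) := by
      intro Z W s t hZ hW
      rw [← mul_assoc, Matrix.transpose_mul, hZ, mul_sub, mul_smul_comm, e2, hW, ← mul_assoc, e2,
        hW, sub_mul, smul_mul_assoc, smul_sub, smul_smul]
      abel_nf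
      rw [mul_assoc]
    show (B * (X * Y - Y * X))ᵀ = B * (X * Y - Y * X)
    rw [mul_sub, Matrix.transpose_sub, e4 X Y c d hX hY, e4 Y X d c hY hX]
    ext i j
    simp only [Matrix.sub_apply, Matrix.add_apply, Matrix.smul_apply, smul_eq_mul]
    linear_combination ((B * (Y * X)) i j - (B * (X * Y)) i j) * h2

end gsp

end Pool.Agent.T9h32.SV
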