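import Pool.Agent.R417.FK.Crit
import Pool.Agent.R417.FK.Two

/-!
# The infinitesimal criterion with an explicit functional, and solvable Lie algebras (helper32)
-/

set_option autoImplicit false

namespace Pool.Agent.T9h32.SV

open NumberField Matrix IsLocalRing Pool.Agent.W569.FM Pool.Agent.TH831.NA Pool.Agent.W571.FM
  Pool.Agent.TH831.OE Pool.Agent.R417.FK

/-- functionals on `I / 𝔪 I`, as functions on `A` -/
structure Func {A : Type} [CommRing A] [IsLocalRing A] (I : Ideal A) (f : A → ResidueField A) :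
    Prop where
  add : ∀ x ∈ I, ∀ y ∈ I, f (x + y) = f x + f y
  mul : ∀ c, ∀ x ∈ I, f (c * x) = residue A c * f x
  zero : ∀ x ∈ maximalIdeal A * I, f x = 0

section
variable {K : Type} [Field K] [NumberField K] {p : ℕ} [hp : Fact p.Prime] {A : Type} [CommRing A]
  [IsLocalRing A] [IsNoetherianRing A] {n : ℕ}

/-- **the criterion**, with the functional -/
theorem mainF {ρ : GF K →* GL (Fin n) A}
    (hpA : (p : A) ∈ maximalIdeal A)
    (hcts : ∀ N : ℕ, ∀ᶠ g in nhds (1 : GF K), MJ (maximalIdeal A ^ N)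
      ((ρ g : Matrix (Fin n) (Fin n) A) - 1)) (hG : Good ρ)
    (hm : ∀ g, MJ (maximalIdeal A) ((ρ g : Matrix (Fin n) (Fin n) A) - 1))
    (hur : ∀ P : Ideal (OO K), P.IsMaximal → (p : OO K) ∈ P → ∀ τ, InInertia P τ → ρ τ = 1)
    (hrel : ∀ P : Ideal (OO K), P.IsMaximal → (p : OO K) ∉ P → ∀ k : ℕ, Lev p k P →
      ∀ τ, InInertia P τ →
      MJ (maximalIdeal A * I0 ρ) ((ρ τ : Matrix (Fin n) (Fin n) A) - 1) ∨
      ∃ a : Matrix (Fin n) (Fin n) A, (ρ τ : Matrix (Fin n) (Fin n) A) - 1 = ((p : A) ^ k) • a ∧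
        ∀ σ, FrobAt (nm P) P σ →
        MJ (maximalIdeal A * I0 ρ) (((((nm P - 1) / p ^ k : ℕ)) : A) •
            ((ρ τ : Matrix (Fin n) (Fin n) A) - 1) -
            (((ρ σ : Matrix (Fin n) (Fin n) A) - 1) * a -
              a * ((ρ σ : Matrix (Fin n) (Fin n) A) - 1))))
    (hcrit : ∀ k : ℕ, ∀ f : A → ResidueField A, Func (I0 ρ) f →
      ∀ φ : GF K →* Multiplicative (Matrix (Fin n) (Fin n) (ResidueField A)),
      (∀ g i j, Multiplicative.toAdd (φ g) i j = f (((ρ g : Matrix (Fin n) (Fin n) A) - 1) i j)) →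
      IsOpen (φ.ker : Set (GF K)) →
      (∀ P : Ideal (OO K), P.IsMaximal → ¬ ((p : OO K) ∉ P ∧ Lev p k P) →
        ∀ τ, InInertia P τ → φ τ = 1) →
      (∀ P : Ideal (OO K), P.IsMaximal → (p : OO K) ∉ P → Lev p k P →
        ∀ τ, InInertia P τ → ∀ σ, FrobAt (nm P) P σ →
        Multiplicative.toAdd (φ σ) * Multiplicative.toAdd (φ τ) -
          Multiplicative.toAdd (φ τ) * Multiplicative.toAdd (φ σ) =
          (((nm P - 1) / p ^ k : ℕ) : ResidueField A) • Multiplicative.toAdd (φ τ)) →
      ∀ g, φ g = 1) (g : GF K) : ρ g = 1 := by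
  classical
  set I := I0 ρ with hIdef
  have hIm : I ≤ maximalIdeal A := I0_le hm
  set J := maximalIdeal A * I with hJ
  -- induction on the level
  have key : ∀ k : ℕ, ∀ (P : Ideal (OO K)) (τ : GF K), P.IsMaximal → (p : OO K) ∉ P →
      InInertia P τ → Lev p k P → MJ J ((ρ τ : Matrix (Fin n) (Fin n) A) - 1) := by
    intro k
    induction k using Nat.strong_induction_on with
    | _ k ih =>
      intro P τ hP hpP hτ hk
      by_contra hbad
      obtain ⟨a, ha, hrel0⟩ := (hrel P hP hpP k hk τ hτ).resolve_left hbad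
      obtain ⟨σ, hσ⟩ := exists_frob hP
      have hrelσ := hrel0 σ hσ
      obtain ⟨hq, hu⟩ := lev_data hp.out hP hk
      have hau : ∃ i j, IsUnit (a i j) := by
        by_contra hcon
        push Not at hcon
        have ham : MJ (maximalIdeal A) a := fun i j => hcon i j
        apply hbad
        apply MJ_unit (isUnit_nat (p := p) hpA hu)
        have h5 : MJ J (((ρ σ : Matrix (Fin n) (Fin n) A) - 1) * a -
            a * ((ρ σ : Matrix (Fin n) (Fin n) A) - 1)) := by
          refine MJ_sub ?_ (ham.mul (mem_I0 ρ σ))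
          rw [hJ, mul_comm]
          exact (mem_I0 ρ σ).mul ham
        have h6 := hrelσ.add h5
        rwa [sub_add_cancel] at h6
      obtain ⟨i0, j0, hij⟩ := hau
      have hpI : (p : A) ^ k ∈ I := by
        have h5 := mem_I0 ρ τ i0 j0
        rw [ha, Matrix.smul_apply, smul_eq_mul, mul_comm] at h5
        exact (Ideal.unit_mul_mem_iff_mem _ hij).1 h5
      have hpJ : (p : A) ^ k ∉ J := by
        intro h5
        apply hbad
        rw [ha]
        exact fun i j => Ideal.mul_mem_right _ _ h5
      obtain ⟨f, hfadd, hfmul, hfJ, hf1⟩ := exists_functional hpI hpJ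
      have hf0 : f 0 = 0 := hfJ 0 (Ideal.zero_mem _)
      -- the homomorphism
      let φ : GF K →* Multiplicative (Matrix (Fin n) (Fin n) (ResidueField A)) :=
        MonoidHom.mk' (fun g => Multiplicative.ofAdd (Matrix.of fun i j =>
          f (((ρ g : Matrix (Fin n) (Fin n) A) - 1) i j))) (by
          intro x y
          rw [← ofAdd_add]
          congr 1
          ext i j
          rw [Matrix.add_apply, Matrix.of_apply, Matrix.of_apply, Matrix.of_apply]
          have e1 : ((ρ (x * y) : GL (Fin n) A) : Matrix (Fin n) (Fin n) A) - 1 =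
              (((ρ x : Matrix (Fin n) (Fin n) A) - 1) + ((ρ y : Matrix (Fin n) (Fin n) A) - 1)) +
              ((ρ x : Matrix (Fin n) (Fin n) A) - 1) * ((ρ y : Matrix (Fin n) (Fin n) A) - 1) := by
            rw [map_mul, Units.val_mul]
            noncomm_ring
          have e2 : (((ρ x : Matrix (Fin n) (Fin n) A) - 1) *
              ((ρ y : Matrix (Fin n) (Fin n) A) - 1)) i j ∈ J := ((hm x).mul (mem_I0 ρ y)) i j
          rw [e1, Matrix.add_apply, Matrix.add_apply,
            hfadd _ (I.add_mem (mem_I0 ρ x i j) (mem_I0 ρ y i j)) _ (Ideal.mul_le_right e2),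
            hfadd _ (mem_I0 ρ x i j) _ (mem_I0 ρ y i j), hfJ _ e2, add_zero])
      have hφ : ∀ g i j, Multiplicative.toAdd (φ g) i j =
          f (((ρ g : Matrix (Fin n) (Fin n) A) - 1) i j) := fun g i j => rfl
      have hφ1 : ∀ g, MJ J ((ρ g : Matrix (Fin n) (Fin n) A) - 1) → φ g = 1 := by
        intro g hg
        apply Multiplicative.toAdd.injective
        ext i j
        rw [hφ, toAdd_one, Matrix.zero_apply]
        exact hfJ _ (hg i j)
      have hφa : ∀ (g : GF K) (b : Matrix (Fin n) (Fin n) A),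
          (ρ g : Matrix (Fin n) (Fin n) A) - 1 = ((p : A) ^ k) • b →
          Multiplicative.toAdd (φ g) = (residue A).mapMatrix b := by
        intro g b hb
        ext i j
        rw [hφ, hb, Matrix.smul_apply, smul_eq_mul, mul_comm, hfmul _ _ hpI, hf1, mul_one]
        rfl
      have hfin := hcrit k f ⟨hfadd, hfmul, hfJ⟩ φ hφ ?_ ?_ ?_ τ
      · have h5 := hφa τ a ha
        rw [hfin, toAdd_one] at h5
        have h6 := congrFun (congrFun h5 i0) j0
        rw [Matrix.zero_apply, RingHom.mapMatrix_apply, Matrix.map_apply] at h6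
        have h7 : a i0 j0 ∈ maximalIdeal A := (residue_eq_zero_iff _).1 h6.symm
        exact h7 hij
      · obtain ⟨N, hN⟩ := artin_rees I
        apply Subgroup.isOpen_of_mem_nhds _ (g := (1 : GF K))
        filter_upwards [hcts N] with g hg
        exact hφ1 g fun i j => hN ⟨hg i j, mem_I0 ρ g i j⟩
      · intro P' hP' hnot τ' hτ'
        by_cases hpP' : (p : OO K) ∈ P'
        · apply hφ1
          rw [hur P' hP' hpP' τ' hτ', Units.val_one, sub_self]
          exact fun i j => Ideal.zero_mem _
        obtain ⟨k', hk'⟩ := exists_lev hp.out hP'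
        rcases lt_trichotomy k' k with h | h | h
        · exact hφ1 _ (ih k' h P' τ' hP' hpP' hτ' hk')
        · exact absurd ⟨hpP', h ▸ hk'⟩ hnot
        · apply hφ1
          rcases hrel P' hP' hpP' k' hk' τ' hτ' with h9 | ⟨b, hb, -⟩
          · exact h9
          obtain ⟨d, rfl⟩ : ∃ d, k' = k + (d + 1) := ⟨k' - k - 1, by omega⟩
          rw [hb, pow_add, mul_comm, mul_smul]
          exact MJ_smul_mem (Ideal.pow_mem_of_mem _ hpA _ (Nat.succ_pos d))
            (fun i j => Ideal.mul_mem_right _ _ hpI)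
      · intro P' hP' hpP' hk' τ' hτ' σ' hσ'
        rcases hrel P' hP' hpP' k hk' τ' hτ' with h9 | ⟨b, hb, hrelb⟩
        · have h10 : Multiplicative.toAdd (φ τ') = 0 := by
            rw [hφ1 τ' h9, toAdd_one]
          rw [h10, mul_zero, zero_mul, sub_self, smul_zero]
        have hrel' := hrelb σ' hσ'
        have hb' := hφa τ' b hb
        ext i j
        have h5 := hfJ _ (hrel' i j)
        have hsum : ∀ (s : Finset (Fin n)) (x : Fin n → A), (∀ l ∈ s, x l ∈ I) →
            f (∑ l ∈ s, x l) = ∑ l ∈ s, f (x l) := by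
          intro s x
          induction s using Finset.induction_on with
          | empty => intro _; rw [Finset.sum_empty, Finset.sum_empty, hf0]
          | insert l s hl ihs =>
            intro hx
            rw [Finset.sum_insert hl, Finset.sum_insert hl,
              hfadd _ (hx l (Finset.mem_insert_self l s)) _
              (Ideal.sum_mem _ fun t ht => hx t (Finset.mem_insert_of_mem ht)),
              ihs fun t ht => hx t (Finset.mem_insert_of_mem ht)]
        have hfsub : ∀ x ∈ I, ∀ y ∈ I, f (x - y) = f x - f y := by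
          intro x hx y hy
          have h6 := hfadd (x - y) (I.sub_mem hx hy) y hy
          rw [sub_add_cancel] at h6
          rw [h6]
          ring
        have hFb : (((ρ σ' : Matrix (Fin n) (Fin n) A) - 1) * b) i j ∈ I :=
          (mem_I0 ρ σ').mul_right b i j
        have hbF : (b * ((ρ σ' : Matrix (Fin n) (Fin n) A) - 1)) i j ∈ I :=
          MJ_mul_left (mem_I0 ρ σ') b i j
        have e1 : f ((((ρ σ' : Matrix (Fin n) (Fin n) A) - 1) * b) i j) =
            (Multiplicative.toAdd (φ σ') * Multiplicative.toAdd (φ τ')) i j := by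
          rw [Matrix.mul_apply, hsum _ _ fun l _ => I.mul_mem_right _ (mem_I0 ρ σ' i l),
            Matrix.mul_apply]
          refine Finset.sum_congr rfl fun l _ => ?_
          rw [mul_comm, hfmul _ _ (mem_I0 ρ σ' i l), hφ, hb', mul_comm]
          rfl
        have e2 : f ((b * ((ρ σ' : Matrix (Fin n) (Fin n) A) - 1)) i j) =
            (Multiplicative.toAdd (φ τ') * Multiplicative.toAdd (φ σ')) i j := by
          rw [Matrix.mul_apply, hsum _ _ fun l _ => I.mul_mem_left _ (mem_I0 ρ σ' l j),
            Matrix.mul_apply]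
          refine Finset.sum_congr rfl fun l _ => ?_
          rw [hfmul _ _ (mem_I0 ρ σ' l j), hb', hφ σ' l j]
          rfl
        rw [Matrix.sub_apply, ← e1, ← e2, Matrix.smul_apply, hφ, smul_eq_mul]
        have e0 : (((((nm P' - 1) / p ^ k : ℕ)) : A) • ((ρ τ' : Matrix (Fin n) (Fin n) A) - 1) -
            (((ρ σ' : Matrix (Fin n) (Fin n) A) - 1) * b -
              b * ((ρ σ' : Matrix (Fin n) (Fin n) A) - 1))) i j =
            ((((nm P' - 1) / p ^ k : ℕ)) : A) * ((ρ τ' : Matrix (Fin n) (Fin n) A) - 1) i j -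
            ((((ρ σ' : Matrix (Fin n) (Fin n) A) - 1) * b) i j -
              (b * ((ρ σ' : Matrix (Fin n) (Fin n) A) - 1)) i j) := rfl
        rw [e0, hfsub _ (I.mul_mem_left _ (mem_I0 ρ τ' i j)) _ (I.sub_mem hFb hbF),
          hfmul _ _ (mem_I0 ρ τ' i j), hfsub _ hFb _ hbF, map_natCast, sub_eq_zero] at h5
        exact h5.symm
  refine triv_of_le (I0_le fun g => ?_) g
  refine cong_of_good hG J (fun P hP τ hτ => ?_) g
  by_cases hpP : (p : OO K) ∈ P
  · rw [hur P hP hpP τ hτ, Units.val_one, sub_self]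
    exact fun i j => Ideal.zero_mem _
  · obtain ⟨k, hk⟩ := exists_lev hp.out hP
    exact key k P τ hP hpP hτ hk

/-- no infinitesimal solutions with values in a solvable Lie algebra -/
theorem crit_solv (hK : NoUr K p) {κ : Type} [Field κ] [CharP κ p] {k : ℕ}
    (φ : GF K →* Multiplicative (Matrix (Fin n) (Fin n) κ)) (hφo : IsOpen (φ.ker : Set (GF K)))
    (h1 : ∀ P : Ideal (OO K), P.IsMaximal → ¬ ((p : OO K) ∉ P ∧ Lev p k P) →
        ∀ τ, InInertia P τ → φ τ = 1)
    (h2 : ∀ P : Ideal (OO K), P.IsMaximal → (p : OO K) ∉ P → Lev p k P →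
        ∀ τ, InInertia P τ → ∀ σ, FrobAt (nm P) P σ →
        Multiplicative.toAdd (φ σ) * Multiplicative.toAdd (φ τ) -
          Multiplicative.toAdd (φ τ) * Multiplicative.toAdd (φ σ) =
          (((nm P - 1) / p ^ k : ℕ) : κ) • Multiplicative.toAdd (φ τ))
    (V : ℕ → Submodule κ (Matrix (Fin n) (Fin n) κ)) (r : ℕ)
    (h0 : ∀ g, Multiplicative.toAdd (φ g) ∈ V 0)
    (hV : ∀ i, ∀ x ∈ V i, ∀ y ∈ V i, x * y - y * x ∈ V (i + 1)) (hr : V r = ⊥) (g : GF K) :
    φ g = 1 := by
  have hE := pgroup_mat (p := p) κ n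
  have key : ∀ i, ∀ g, Multiplicative.toAdd (φ g) ∈ V i := by
    intro i
    induction i with
    | zero => exact h0
    | succ i ih =>
      set H : Subgroup (Multiplicative (Matrix (Fin n) (Fin n) κ)) :=
        (V (i + 1)).toAddSubgroup.toSubgroup with hH
      have hmem : ∀ x : Multiplicative (Matrix (Fin n) (Fin n) κ),
          x ∈ H ↔ Multiplicative.toAdd x ∈ V (i + 1) := fun x => Iff.rfl
      intro g
      rw [← hmem]
      have h3 := gen_p hK ((QuotientGroup.mk' H).comp φ) ?_ ?_ ?_ g
      · exact (QuotientGroup.eq_one_iff _).1 h3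
      · exact (hE.to_quotient H).to_subgroup _
      · refine Subgroup.isOpen_mono (fun a ha => ?_) hφo
        have h4 : φ a = 1 := ha
        rw [MonoidHom.mem_ker, MonoidHom.comp_apply, h4, map_one]
      · intro P hP τ hτ
        rw [MonoidHom.comp_apply]
        refine (QuotientGroup.eq_one_iff _).2 ?_
        by_cases hc : (p : OO K) ∉ P ∧ Lev p k P
        · obtain ⟨σ, hσ⟩ := exists_frob hP
          have h5 := h2 P hP hc.1 hc.2 τ hτ σ hσ
          have h6 := hV i _ (ih σ) _ (ih τ)
          rw [h5] at h6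
          have hu : (((nm P - 1) / p ^ k : ℕ) : κ) ≠ 0 := by
            rw [Ne, CharP.cast_eq_zero_iff κ p]
            exact (lev_data hp.out hP hc.2).2
          rw [hmem]
          exact ((V (i + 1)).smul_mem_iff hu).1 h6
        · rw [h1 P hP hc τ hτ]
          exact H.one_mem
  have h3 := key r g
  rw [hr, Submodule.mem_bot] at h3
  exact Multiplicative.toAdd.injective (by rw [h3, toAdd_one])

end

end Pool.Agent.T9h32.SV
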