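import Pool.Agent.T9h32.SV.Alg

/-!
# Tangent spaces (helper32)
-/

set_option autoImplicit false

namespace Pool.Agent.T9h32.SV

open NumberField Matrix IsLocalRing Pool.Agent.W569.FM Pool.Agent.TH831.NA Pool.Agent.R417.FK

section
variable {A : Type} [CommRing A] [IsLocalRing A] {n : ℕ} {I : Ideal A} {f : A → ResidueField A}

theorem Func.map_zero (hf : Func I f) : f 0 = 0 := hf.zero 0 (Ideal.zero_mem _)

theorem Func.sum (hf : Func I f) {ι : Type} (s : Finset ι) (x : ι → A) (hx : ∀ l ∈ s, x l ∈ I) :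
    f (∑ l ∈ s, x l) = ∑ l ∈ s, f (x l) := by
  classical
  induction s using Finset.induction_on with
  | empty => rw [Finset.sum_empty, Finset.sum_empty, hf.map_zero]
  | insert l s hl ihs =>
    rw [Finset.sum_insert hl, Finset.sum_insert hl,
      hf.add _ (hx l (Finset.mem_insert_self l s)) _
      (Ideal.sum_mem _ fun t ht => hx t (Finset.mem_insert_of_mem ht)),
      ihs fun t ht => hx t (Finset.mem_insert_of_mem ht)]

/-- the value of a functional on a matrix -/
def fm (f : A → ResidueField A) (M : Matrix (Fin n) (Fin n) A) :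
    Matrix (Fin n) (Fin n) (ResidueField A) := Matrix.of fun i j => f (M i j)

theorem fm_apply (f : A → ResidueField A) (M : Matrix (Fin n) (Fin n) A) (i j : Fin n) :
    fm f M i j = f (M i j) := rfl

theorem fm_add (hf : Func I f) {M N : Matrix (Fin n) (Fin n) A} (hM : MJ I M) (hN : MJ I N) :
    fm f (M + N) = fm f M + fm f N := by
  ext i j
  rw [fm_apply, Matrix.add_apply, hf.add _ (hM i j) _ (hN i j)]
  rfl

theorem fm_mul_left (hf : Func I f) {M : Matrix (Fin n) (Fin n) A} (hM : MJ I M)
    (C : Matrix (Fin n) (Fin n) A) : fm f (C * M) = (residue A).mapMatrix C * fm f M := by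
  ext i j
  rw [fm_apply, Matrix.mul_apply, hf.sum _ _ fun l _ => I.mul_mem_left _ (hM l j), Matrix.mul_apply]
  refine Finset.sum_congr rfl fun l _ => ?_
  rw [hf.mul _ _ (hM l j)]
  rfl

theorem fm_mul_right (hf : Func I f) {M : Matrix (Fin n) (Fin n) A} (hM : MJ I M)
    (C : Matrix (Fin n) (Fin n) A) : fm f (M * C) = fm f M * (residue A).mapMatrix C := by
  ext i j
  rw [fm_apply, Matrix.mul_apply, hf.sum _ _ fun l _ => I.mul_mem_right _ (hM i l),
    Matrix.mul_apply]
  refine Finset.sum_congr rfl fun l _ => ?_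
  rw [mul_comm, hf.mul _ _ (hM i l), mul_comm]
  rfl

theorem fm_zero (hf : Func I f) {M : Matrix (Fin n) (Fin n) A} (hM : MJ (maximalIdeal A * I) M) :
    fm f M = 0 := by
  ext i j
  exact hf.zero _ (hM i j)

theorem MJ_transpose {J : Ideal A} {M : Matrix (Fin n) (Fin n) A} (hM : MJ J M) : MJ J Mᵀ :=
  fun i j => hM j i

/-- the Taylor expansion modulo the square of an ideal -/
theorem taylor {σ : Type} [Fintype σ] [DecidableEq σ] (I : Ideal A) (x X : σ → A)
    (hX : ∀ i, X i ∈ I) (F : MvPolynomial σ A) :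
    MvPolynomial.eval (x + X) F - MvPolynomial.eval x F -
      ∑ i, MvPolynomial.eval x (MvPolynomial.pderiv i F) * X i ∈ I * I := by
  have hmem : ∀ G : MvPolynomial σ A, MvPolynomial.eval (x + X) G - MvPolynomial.eval x G ∈ I := by
    intro G
    induction G using MvPolynomial.induction_on with
    | C a => rw [MvPolynomial.eval_C, MvPolynomial.eval_C, sub_self]; exact I.zero_mem
    | add P Q hP hQ =>
      rw [map_add, map_add]
      have := I.add_mem hP hQ
      convert this using 1
      ring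
    | mul_X P j hP =>
      rw [map_mul, map_mul, MvPolynomial.eval_X, MvPolynomial.eval_X, Pi.add_apply]
      have := I.add_mem (I.mul_mem_right (x j + X j) hP)
        (I.mul_mem_left (MvPolynomial.eval x P) (hX j))
      convert this using 1
      ring
  induction F using MvPolynomial.induction_on with
  | C a =>
    simp
  | add P Q hP hQ =>
    have := (I * I).add_mem hP hQ
    convert this using 1
    simp only [map_add, add_mul, Finset.sum_add_distrib]
    ring
  | mul_X P j hP =>
    have h1 := (I * I).add_mem ((I * I).mul_mem_right (x j) hP)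
      (Ideal.mul_mem_mul (hmem P) (hX j))
    convert h1 using 1
    have h2 : ∑ i, MvPolynomial.eval x (MvPolynomial.pderiv i (P * MvPolynomial.X j)) * X i =
        (∑ i, MvPolynomial.eval x (MvPolynomial.pderiv i P) * X i) * x j +
          MvPolynomial.eval x P * X j := by
      rw [Finset.sum_mul]
      have h3 : ∀ i, MvPolynomial.eval x (MvPolynomial.pderiv i (P * MvPolynomial.X j)) * X i =
          MvPolynomial.eval x (MvPolynomial.pderiv i P) * X i * x j +
            (if i = j then MvPolynomial.eval x P * X j else 0) := by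
        intro i
        rw [MvPolynomial.pderiv_mul, map_add, map_mul, map_mul, MvPolynomial.eval_X]
        by_cases hij : i = j
        · subst hij
          rw [MvPolynomial.pderiv_X_self, map_one, if_pos rfl]
          ring
        · rw [MvPolynomial.pderiv_X_of_ne (Ne.symm hij), map_zero, if_neg hij]
          ring
      rw [Finset.sum_congr rfl fun i _ => h3 i, Finset.sum_add_distrib, Finset.sum_ite_eq']
      simp
    rw [h2, map_mul, map_mul, MvPolynomial.eval_X, MvPolynomial.eval_X, Pi.add_apply]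
    ring

end

section
variable {K : Type} [Field K] {A : Type} [CommRing A] [IsLocalRing A] {n : ℕ}

/-- the entries of a matrix, as a point of affine space -/
def ent (M : Matrix (Fin n) (Fin n) A) : Fin n × Fin n → A := fun ij => M ij.1 ij.2

/-- the tangent space at the identity of the special fibre of the Zariski closure of the image -/
def tang (ρ : GF K →* GL (Fin n) A) : Set (Matrix (Fin n) (Fin n) (ResidueField A)) :=
  {Y | ∀ F : MvPolynomial (Fin n × Fin n) A,
    (∀ g, MvPolynomial.eval (ent (ρ g : Matrix (Fin n) (Fin n) A)) F = 0) →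
    ∑ ij : Fin n × Fin n, residue A (MvPolynomial.eval (ent (1 : Matrix (Fin n) (Fin n) A))
      (MvPolynomial.pderiv ij F)) * Y ij.1 ij.2 = 0}

theorem fm_mem_tang {ρ : GF K →* GL (Fin n) A}
    (hm : ∀ g, MJ (maximalIdeal A) ((ρ g : Matrix (Fin n) (Fin n) A) - 1))
    {f : A → ResidueField A} (hf : Func (I0 ρ) f) (g : GF K) :
    (Matrix.of fun i j => f (((ρ g : Matrix (Fin n) (Fin n) A) - 1) i j)) ∈ tang ρ := by
  intro F hF
  set X : Fin n × Fin n → A := ent ((ρ g : Matrix (Fin n) (Fin n) A) - 1) with hX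
  have hXI : ∀ ij, X ij ∈ I0 ρ := fun ij => mem_I0 ρ g ij.1 ij.2
  have h1 := taylor (I0 ρ) (ent (1 : Matrix (Fin n) (Fin n) A)) X hXI F
  have h2 : ent (1 : Matrix (Fin n) (Fin n) A) + X = ent (ρ g : Matrix (Fin n) (Fin n) A) := by
    funext ij
    rw [hX, Pi.add_apply, ent, ent, ent, Matrix.sub_apply]
    ring
  have h3 : MvPolynomial.eval (ent (1 : Matrix (Fin n) (Fin n) A)) F = 0 := by
    have := hF 1
    rwa [map_one, Units.val_one] at this
  rw [h2, hF g, h3, sub_zero, zero_sub, neg_mem_iff] at h1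
  have h4 := hf.zero _ (Ideal.mul_mono_left (I0_le hm) h1)
  rw [hf.sum _ _ fun ij _ => Ideal.mul_mem_left _ _ (hXI ij)] at h4
  rw [← h4]
  refine Finset.sum_congr rfl fun ij _ => ?_
  rw [hf.mul _ _ (hXI ij)]
  rfl

/-- similitudes of a bilinear form -/
theorem fm_mem_W0 {ρ : GF K →* GL (Fin 4) A}
    (hm : ∀ g, MJ (maximalIdeal A) ((ρ g : Matrix (Fin 4) (Fin 4) A) - 1))
    {B : Matrix (Fin 4) (Fin 4) A} (hu : IsUnit B.det)
    (hB : ∀ g, ∃ ν : A, (ρ g : Matrix (Fin 4) (Fin 4) A)ᵀ * B * (ρ g : Matrix (Fin 4) (Fin 4) A) =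
      ν • B)
    {f : A → ResidueField A} (hf : Func (I0 ρ) f) (g : GF K) :
    (Matrix.of fun i j => f (((ρ g : Matrix (Fin 4) (Fin 4) A) - 1) i j)) ∈
      W0 ((residue A).mapMatrix B) := by
  obtain ⟨ν, hν⟩ := hB g
  set X := (ρ g : Matrix (Fin 4) (Fin 4) A) - 1 with hX
  have hXI : MJ (I0 ρ) X := mem_I0 ρ g
  have h1 : Xᵀ * B + B * X + Xᵀ * B * X = (ν - 1) • B := by
    have h2 : (ρ g : Matrix (Fin 4) (Fin 4) A) = 1 + X := by
      rw [hX]
      abel
    rw [h2, Matrix.transpose_add, Matrix.transpose_one] at hν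
    rw [sub_smul, one_smul, ← hν]
    noncomm_ring
  have hI1 : MJ (I0 ρ) (Xᵀ * B) := (MJ_transpose hXI).mul_right B
  have hI2 : MJ (I0 ρ) (B * X) := MJ_mul_left hXI B
  have hI3 : MJ (maximalIdeal A * I0 ρ) (Xᵀ * B * X) := by
    refine MJ.mul ?_ hXI
    exact (MJ_transpose (hm g)).mul_right B
  have hI4 : MJ (I0 ρ) (Xᵀ * B * X) := fun i j => Ideal.mul_le_right (hI3 i j)
  -- some entry of `B` is a unit
  obtain ⟨i0, j0, hij⟩ : ∃ i j, IsUnit (B i j) := by
    by_contra hcon
    push Not at hcon
    have h3 : (residue A).mapMatrix B = 0 := by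
      ext i j
      rw [RingHom.mapMatrix_apply, Matrix.map_apply, Matrix.zero_apply, residue_eq_zero_iff]
      exact hcon i j
    have h4 : residue A B.det = 0 := by
      rw [RingHom.map_det, h3, Matrix.det_zero]
    exact (residue_eq_zero_iff _).1 h4 hu
  have hν1 : ν - 1 ∈ I0 ρ := by
    have h3 : MJ (I0 ρ) ((ν - 1) • B) := by
      rw [← h1]
      exact (hI1.add hI2).add hI4
    have h4 := h3 i0 j0
    rw [Matrix.smul_apply, smul_eq_mul, mul_comm] at h4
    exact (Ideal.unit_mul_mem_iff_mem _ hij).1 h4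
  refine ⟨f (ν - 1), ?_⟩
  have h5 := congrArg (fm f) h1
  rw [fm_add hf (hI1.add hI2) hI4, fm_add hf hI1 hI2, fm_zero hf hI3, add_zero,
    fm_mul_right hf (MJ_transpose hXI), fm_mul_left hf hXI] at h5
  have h6 : fm f ((ν - 1) • B) = f (ν - 1) • (residue A).mapMatrix B := by
    ext i j
    rw [fm_apply, Matrix.smul_apply, smul_eq_mul, mul_comm, hf.mul _ _ hν1, mul_comm]
    rfl
  rw [h6] at h5
  exact h5

end

end Pool.Agent.T9h32.SV
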