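import Pool.Agent.T9h32.SV.Crit

/-!
# The relations at the ramified primes, and reduction to torsion-free coefficients (helper32)
-/

set_option autoImplicit false

namespace Pool.Agent.T9h32.SV

open NumberField Matrix IsLocalRing Pool.Agent.W569.FM Pool.Agent.TH831.NA Pool.Agent.W571.FM
  Pool.Agent.TH831.OE Pool.Agent.R417.FK

section
variable {K : Type} [Field K] [NumberField K] {A : Type} [CommRing A] {n : ℕ}

/-- the condition on the inertia groups -/
def InCond (p m : ℕ) (ρ : GF K →* GL (Fin n) A) : Prop :=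
  ∀ P : Ideal (OO K), P.IsMaximal → (p : OO K) ∉ P → ∀ τ, InInertia P τ →
    (∀ k : ℕ, k ≤ m ∨ p ^ k ∣ nm P - 1 →
      ∀ i j, (p : A) ^ k ∣ ((ρ τ : Matrix (Fin n) (Fin n) A) - 1) i j) ∧
    ((∃ e, 2 < p ^ e ∧ ∀ i j, (p : A) ^ e ∣ ((ρ τ : Matrix (Fin n) (Fin n) A) - 1) i j) ∨
      ((ρ τ : Matrix (Fin n) (Fin n) A) - 1) ^ 2 = 0)

end

section
variable {K : Type} [Field K] [NumberField K] {p : ℕ} [hp : Fact p.Prime] {A : Type} [CommRing A]
  [IsLocalRing A] {n : ℕ}

omit [IsLocalRing A] hp in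
theorem exists_div {X : Matrix (Fin n) (Fin n) A} {e : ℕ} (h : ∀ i j, (p : A) ^ e ∣ X i j) :
    ∃ a : Matrix (Fin n) (Fin n) A, X = ((p : A) ^ e) • a := by
  choose a ha using h
  refine ⟨Matrix.of a, ?_⟩
  ext i j
  rw [ha i j]
  rfl

omit [IsLocalRing A] hp in
/-- powers of a unipotent matrix with square zero -/
theorem pow_sq_zero {X : Matrix (Fin n) (Fin n) A} (h : X * X = 0) (q : ℕ) :
    (1 + X) ^ q = 1 + (q : A) • X := by
  induction q with
  | zero => simp
  | succ q ih =>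
    rw [pow_succ, ih, mul_add, mul_one, add_mul, one_mul, smul_mul_assoc, h, smul_zero, add_zero]
    push_cast
    rw [add_smul, one_smul]
    abel

/-- the relation for unipotent inertia with square zero -/
theorem comm_sq (hreg : ∀ a : A, (p : A) * a = 0 → a = 0)
    {e : ℕ} {v u : ℕ} (a y : Matrix (Fin n) (Fin n) A)
    (hy : MJ (maximalIdeal A) (y - 1)) (hsq : (((p : A) ^ e) • a) ^ 2 = 0)
    (h : y * (1 + ((p : A) ^ e) • a) = (1 + ((p : A) ^ e) • a) ^ (p ^ v * u + 1) * y) :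
    ∃ W : Matrix (Fin n) (Fin n) A,
      (y - 1) * a - a * (y - 1) = ((p : A) ^ v) • (a * W) ∧
      MJ (maximalIdeal A) (W - (u : A) • (1 : Matrix (Fin n) (Fin n) A)) := by
  refine ⟨(u : A) • y, ?_, ?_⟩
  · rw [pow_two] at hsq
    rw [pow_sq_zero hsq] at h
    have h1 : ((p : A) ^ e) • ((y - 1) * a - a * (y - 1) - ((p : A) ^ v) • (a * ((u : A) • y))) =
        0 := by
      have e1 : y * (1 + ((p : A) ^ e) • a) = y + ((p : A) ^ e) • (y * a) := by
        rw [mul_add, mul_one, mul_smul_comm]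
      have e2 : (1 + ((p ^ v * u + 1 : ℕ) : A) • (((p : A) ^ e) • a)) * y =
          y + ((p : A) ^ e) • (a * y) + ((p : A) ^ e) • (((p : A) ^ v) • (a * ((u : A) • y))) := by
        rw [add_mul, one_mul, smul_mul_assoc, smul_mul_assoc, mul_smul_comm, add_assoc]
        congr 1
        push_cast
        module
      rw [e1, e2, add_assoc, add_right_inj] at h
      have e4 : (y - 1) * a - a * (y - 1) = y * a - a * y := by noncomm_ring
      rw [e4, smul_sub, smul_sub, h]
      abel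
    exact sub_eq_zero.1 (reg_mat hreg e h1)
  · rw [← smul_sub]
    exact MJ_smul _ hy

variable [IsNoetherianRing A]

/-- the relation at any prime -/
theorem rel_any {ρ : GF K →* GL (Fin n) A}
    (hpA : (p : A) ∈ maximalIdeal A) (hreg : ∀ a : A, (p : A) * a = 0 → a = 0)
    (hcts : ∀ N : ℕ, ∀ᶠ g in nhds (1 : GF K), MJ (maximalIdeal A ^ N)
      ((ρ g : Matrix (Fin n) (Fin n) A) - 1))
    (hm : ∀ g, MJ (maximalIdeal A) ((ρ g : Matrix (Fin n) (Fin n) A) - 1)) {m : ℕ} (hm1 : 1 ≤ m)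
    (hI : InCond p m ρ) (P : Ideal (OO K)) (hP : P.IsMaximal) (hpP : (p : OO K) ∉ P) (k : ℕ)
    (hk : Lev p k P) (τ : GF K) (hτ : InInertia P τ) :
    MJ (maximalIdeal A * I0 ρ) ((ρ τ : Matrix (Fin n) (Fin n) A) - 1) ∨
      ∃ a : Matrix (Fin n) (Fin n) A, (ρ τ : Matrix (Fin n) (Fin n) A) - 1 = ((p : A) ^ k) • a ∧
        ∀ σ, FrobAt (nm P) P σ →
        MJ (maximalIdeal A * I0 ρ) (((((nm P - 1) / p ^ k : ℕ)) : A) •
            ((ρ τ : Matrix (Fin n) (Fin n) A) - 1) -
            (((ρ σ : Matrix (Fin n) (Fin n) A) - 1) * a -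
              a * ((ρ σ : Matrix (Fin n) (Fin n) A) - 1))) := by
  obtain ⟨hI1, hI2⟩ := hI P hP hpP τ hτ
  obtain ⟨hq, hu⟩ := lev_data hp.out hP hk
  have hstep : ∀ e : ℕ, k ≤ e → ∀ a : Matrix (Fin n) (Fin n) A,
      (ρ τ : Matrix (Fin n) (Fin n) A) - 1 = ((p : A) ^ e) • a →
      (∀ σ, FrobAt (nm P) P σ → ∃ W : Matrix (Fin n) (Fin n) A,
        ((ρ σ : Matrix (Fin n) (Fin n) A) - 1) * a - a * ((ρ σ : Matrix (Fin n) (Fin n) A) - 1) =
          ((p : A) ^ k) • (a * W) ∧
        MJ (maximalIdeal A) (W - (((nm P - 1) / p ^ k : ℕ) : A) •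
          (1 : Matrix (Fin n) (Fin n) A))) →
      MJ (maximalIdeal A * I0 ρ) ((ρ τ : Matrix (Fin n) (Fin n) A) - 1) ∨
      ∃ a : Matrix (Fin n) (Fin n) A, (ρ τ : Matrix (Fin n) (Fin n) A) - 1 = ((p : A) ^ k) • a ∧
        ∀ σ, FrobAt (nm P) P σ →
        MJ (maximalIdeal A * I0 ρ) (((((nm P - 1) / p ^ k : ℕ)) : A) •
            ((ρ τ : Matrix (Fin n) (Fin n) A) - 1) -
            (((ρ σ : Matrix (Fin n) (Fin n) A) - 1) * a -
              a * ((ρ σ : Matrix (Fin n) (Fin n) A) - 1))) := by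
    intro e hke a ha hrel
    rcases hke.lt_or_eq with hlt | rfl
    · left
      obtain ⟨σ, hσ⟩ := exists_frob hP
      obtain ⟨W, h1, h2⟩ := hrel σ hσ
      exact small_level hpA hlt (isUnit_nat (p := p) hpA hu) ha h2 h1 (mem_I0 ρ σ) (mem_I0 ρ τ)
    · right
      refine ⟨a, ha, fun σ hσ => ?_⟩
      obtain ⟨W, h1, h2⟩ := hrel σ hσ
      exact exact_level ha h2 h1 (mem_I0 ρ τ)
  rcases hI2 with ⟨e, he, hdiv⟩ | hsq
  · -- trivial modulo a large power
    have he1 : 1 ≤ e := by
      rcases Nat.eq_zero_or_pos e with h | h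
      · rw [h, pow_zero] at he
        omega
      · exact h
    obtain ⟨a, ha⟩ : ∃ a : Matrix (Fin n) (Fin n) A,
        (ρ τ : Matrix (Fin n) (Fin n) A) - 1 = ((p : A) ^ (max e k)) • a := by
      apply exists_div
      rcases le_total e k with h | h
      · rw [max_eq_right h]
        exact hI1 k (Or.inr hk.1)
      · rw [max_eq_left h]
        exact hdiv
    refine hstep (max e k) (le_max_right _ _) a ha fun σ hσ => ?_
    exact (rel_at_nil hpA hreg hcts hm hP hpP hτ (le_max_of_le_left he1)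
      (lt_of_lt_of_le he (Nat.pow_le_pow_right hp.out.pos (le_max_left _ _))) hq a
      (sub_eq_iff_eq_add'.1 ha) hσ).2
  · obtain ⟨a, ha⟩ : ∃ a : Matrix (Fin n) (Fin n) A,
        (ρ τ : Matrix (Fin n) (Fin n) A) - 1 = ((p : A) ^ (max m k)) • a := by
      apply exists_div
      rcases le_total m k with h | h
      · rw [max_eq_right h]
        exact hI1 k (Or.inr hk.1)
      · rw [max_eq_left h]
        exact hI1 m (Or.inl le_rfl)
    refine hstep (max m k) (le_max_right _ _) a ha fun σ hσ => ?_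
    have h1 := exact_relN (n := n) hpA hcts (fun g => ⟨1, by rw [pow_one]; exact hm g⟩) hP hpP hτ hσ
    have h2 := congrArg (fun x : GL (Fin n) A => (x : Matrix (Fin n) (Fin n) A)) h1
    simp only [Units.val_mul, Units.val_pow_eq_pow_val] at h2
    rw [sub_eq_iff_eq_add'.1 ha, hq] at h2
    rw [ha] at hsq
    exact comm_sq hreg a _ (hm σ) hsq h2

/-- the difference from the identity is killed by a power of `p` -/
theorem main_torF {ρ : GF K →* GL (Fin n) A} (hpA : (p : A) ∈ maximalIdeal A)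
    (hcts : ∀ N : ℕ, ∀ᶠ g in nhds (1 : GF K), MJ (maximalIdeal A ^ N)
      ((ρ g : Matrix (Fin n) (Fin n) A) - 1)) (hG : Good ρ) (hK : NoUr K p) {m : ℕ} (hm1 : 1 ≤ m)
    (hur : ∀ P : Ideal (OO K), P.IsMaximal → (p : OO K) ∈ P → ∀ τ, InInertia P τ → ρ τ = 1)
    (hI : InCond p m ρ)
    (V : ℕ → Submodule (ResidueField A) (Matrix (Fin n) (Fin n) (ResidueField A))) (r : ℕ)
    (hV : ∀ i, ∀ x ∈ V i, ∀ y ∈ V i, x * y - y * x ∈ V (i + 1)) (hr : V r = ⊥)
    (hT : ∀ f : A → ResidueField A, Func (I0 ρ) f → ∀ g,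
      (Matrix.of fun i j => f (((ρ g : Matrix (Fin n) (Fin n) A) - 1) i j)) ∈ V 0)
    (g : GF K) : MJ (satI p (⊥ : Ideal A)) ((ρ g : Matrix (Fin n) (Fin n) A) - 1) := by
  set T : Ideal A := satI p (⊥ : Ideal A) with hTdef
  by_cases hTt : T = ⊤
  · intro i j
    rw [hTt]
    exact Submodule.mem_top
  have hnt : Nontrivial (A ⧸ T) := Ideal.Quotient.nontrivial_iff.2 hTt
  have hloc : IsLocalRing (A ⧸ T) :=
    IsLocalRing.of_surjective' _ Ideal.Quotient.mk_surjective
  set π := Ideal.Quotient.mk T with hπ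
  have hπl : IsLocalHom π := IsLocalHom.of_surjective _ Ideal.Quotient.mk_surjective
  set ρ' : GF K →* GL (Fin n) (A ⧸ T) := (GeneralLinearGroup.map π).comp ρ with hρ'
  have hent : ∀ (x : GL (Fin n) A) (i j : Fin n),
      ((GeneralLinearGroup.map π x : GL (Fin n) (A ⧸ T)) - 1 : Matrix (Fin n) (Fin n) (A ⧸ T)) i j =
        π (((x : Matrix (Fin n) (Fin n) A) - 1) i j) := by
    intro x i j
    rw [Matrix.sub_apply, Matrix.sub_apply, map_sub]
    congr 1
    by_cases hij : i = j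
    · subst hij
      rw [Matrix.one_apply_eq, Matrix.one_apply_eq, map_one]
    · rw [Matrix.one_apply_ne hij, Matrix.one_apply_ne hij, map_zero]
  have hMJ : ∀ (x : GL (Fin n) A) (N : ℕ), MJ (maximalIdeal A ^ N)
      ((x : Matrix (Fin n) (Fin n) A) - 1) → MJ (maximalIdeal (A ⧸ T) ^ N)
      ((GeneralLinearGroup.map π x : GL (Fin n) (A ⧸ T)) - 1 :
        Matrix (Fin n) (Fin n) (A ⧸ T)) := by
    intro x N hx i j
    rw [hent]
    exact map_max_pow π (hx i j)
  -- the new data
  have hpA' : (p : A ⧸ T) ∈ maximalIdeal (A ⧸ T) := by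
    have h1 := map_max_pow π (N := 1) (a := p) (by rw [pow_one]; exact hpA)
    rw [pow_one, map_natCast] at h1
    exact h1
  have hreg' : ∀ a : A ⧸ T, (p : A ⧸ T) * a = 0 → a = 0 := by
    intro a ha
    obtain ⟨b, rfl⟩ := Ideal.Quotient.mk_surjective a
    have h1 : π (p * b) = 0 := by
      rw [map_mul, map_natCast]
      exact ha
    obtain ⟨j, hj⟩ := Ideal.Quotient.eq_zero_iff_mem.1 h1
    refine Ideal.Quotient.eq_zero_iff_mem.2 ⟨j + 1, ?_⟩
    rw [pow_succ, mul_assoc]
    exact hj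
  have hcts' : ∀ N : ℕ, ∀ᶠ g in nhds (1 : GF K), MJ (maximalIdeal (A ⧸ T) ^ N)
      ((ρ' g : Matrix (Fin n) (Fin n) (A ⧸ T)) - 1) := by
    intro N
    filter_upwards [hcts N] with g hg
    exact hMJ _ N hg
  have hG' : Good ρ' := by
    intro E _ φ N h hin
    exact hG E (φ.comp (GeneralLinearGroup.map π)) N (fun x hx => h _ (hMJ x N hx)) hin
  have hur' : ∀ P : Ideal (OO K), P.IsMaximal → (p : OO K) ∈ P → ∀ τ, InInertia P τ → ρ' τ = 1 := by
    intro P hP h2 τ hτ
    show GeneralLinearGroup.map π (ρ τ) = 1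
    rw [hur P hP h2 τ hτ, map_one]
  have hdvd : ∀ (τ : GF K) (k : ℕ),
      (∀ i j, (p : A) ^ k ∣ ((ρ τ : Matrix (Fin n) (Fin n) A) - 1) i j) →
      ∀ i j, (p : A ⧸ T) ^ k ∣ ((ρ' τ : Matrix (Fin n) (Fin n) (A ⧸ T)) - 1) i j := by
    intro τ k h i j
    have h1 := map_dvd π (h i j)
    rw [map_pow, map_natCast] at h1
    have h3 := hent (ρ τ) i j
    rw [← h3] at h1
    exact h1
  have hI' : InCond p m ρ' := by
    intro P hP hpP τ hτ
    obtain ⟨h1, h2⟩ := hI P hP hpP τ hτ
    refine ⟨fun k hk => hdvd τ k (h1 k hk), ?_⟩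
    rcases h2 with ⟨e, he, h2⟩ | h2
    · exact Or.inl ⟨e, he, hdvd τ e h2⟩
    · right
      have h3 : ((ρ' τ : Matrix (Fin n) (Fin n) (A ⧸ T)) - 1) =
          π.mapMatrix ((ρ τ : Matrix (Fin n) (Fin n) A) - 1) := by
        ext i j
        rw [RingHom.mapMatrix_apply, Matrix.map_apply]
        exact hent (ρ τ) i j
      rw [h3, ← map_pow, h2, map_zero]
  have hm' : ∀ g, MJ (maximalIdeal (A ⧸ T)) ((ρ' g : Matrix (Fin n) (Fin n) (A ⧸ T)) - 1) := by
    refine cong_of_good hG' _ fun P hP τ hτ => ?_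
    by_cases h2P : (p : OO K) ∈ P
    · rw [hur' P hP h2P τ hτ, Units.val_one, sub_self]
      exact fun i j => Ideal.zero_mem _
    · intro i j
      have h4 := (hI' P hP h2P τ hτ).1 1 (Or.inl hm1) i j
      rw [pow_one] at h4
      exact Ideal.mem_of_dvd _ h4 hpA'
  -- the isomorphism of residue fields
  have hbij : Function.Bijective (ResidueField.map π) := by
    refine ⟨(ResidueField.map π).injective, fun y => ?_⟩
    obtain ⟨y', rfl⟩ := residue_surjective y
    obtain ⟨x, rfl⟩ := Ideal.Quotient.mk_surjective y'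
    exact ⟨residue A x, ResidueField.map_residue π x⟩
  set ε : ResidueField A ≃+* ResidueField (A ⧸ T) := RingEquiv.ofBijective (ResidueField.map π) hbij
    with hε
  have hεr : ∀ x : A, ε.symm (residue (A ⧸ T) (π x)) = residue A x := by
    intro x
    rw [RingEquiv.symm_apply_eq]
    exact (ResidueField.map_residue π x).symm
  have hchar : CharP (ResidueField A) p := by
    rw [CharP.charP_iff_prime_eq_zero hp.out, ← map_natCast (residue A), residue_eq_zero_iff]
    exact hpA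
  have hI0 : ∀ x ∈ I0 ρ, π x ∈ I0 ρ' := by
    intro x hx
    have h1 : I0 ρ ≤ (I0 ρ').comap π := by
      refine I0_le fun g => fun i j => ?_
      rw [Ideal.mem_comap, ← hent]
      exact mem_I0 ρ' g i j
    exact h1 hx
  have key := mainF (p := p) (ρ := ρ') (A := A ⧸ T) hpA' hcts' hG' hm' hur'
    (fun P hP hpP k hk τ hτ => rel_any hpA' hreg' hcts' hm' hm1 hI' P hP hpP k hk τ hτ) ?_ g
  · intro i j
    have h1 := hent (ρ g) i j
    have h2 : (GeneralLinearGroup.map π (ρ g) : GL (Fin n) (A ⧸ T)) = 1 := key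
    rw [h2, Units.val_one, sub_self, Matrix.zero_apply] at h1
    exact Ideal.Quotient.eq_zero_iff_mem.1 h1.symm
  · intro k f' hf' φ' hφ' hφo' h1' h2' g'
    set f : A → ResidueField A := fun x => ε.symm (f' (π x)) with hf
    have hfF : Func (I0 ρ) f := by
      refine ⟨fun x hx y hy => ?_, fun c x hx => ?_, fun x hx => ?_⟩
      · rw [hf]
        dsimp only
        rw [map_add, hf'.add _ (hI0 x hx) _ (hI0 y hy), map_add]
      · rw [hf]
        dsimp only
        rw [map_mul, hf'.mul _ _ (hI0 x hx), map_mul, hεr]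
      · rw [hf]
        dsimp only
        have h3 : π x ∈ maximalIdeal (A ⧸ T) * I0 ρ' := by
          have h4 : maximalIdeal A * I0 ρ ≤ (maximalIdeal (A ⧸ T) * I0 ρ').comap π := by
            rw [Ideal.mul_le]
            intro r hr s hs
            rw [Ideal.mem_comap, map_mul]
            refine Ideal.mul_mem_mul ?_ (hI0 s hs)
            have h5 := map_max_pow π (N := 1) (a := r) (by rw [pow_one]; exact hr)
            rwa [pow_one] at h5
          exact h4 hx
        rw [hf'.zero _ h3, map_zero]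
    let φ : GF K →* Multiplicative (Matrix (Fin n) (Fin n) (ResidueField A)) :=
      (AddMonoidHom.toMultiplicative
        ((ε.symm : ResidueField (A ⧸ T) →+* ResidueField A).mapMatrix.toAddMonoidHom :
          Matrix (Fin n) (Fin n) (ResidueField (A ⧸ T)) →+
            Matrix (Fin n) (Fin n) (ResidueField A))).comp φ'
    have hφ : ∀ g, Multiplicative.toAdd (φ g) =
        (ε.symm : ResidueField (A ⧸ T) →+* ResidueField A).mapMatrix
          (Multiplicative.toAdd (φ' g)) := fun g => rfl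
    have hinj : ∀ g, φ g = 1 ↔ φ' g = 1 := by
      intro g
      rw [← toAdd_eq_zero, ← toAdd_eq_zero, hφ]
      constructor
      · intro h
        ext i j
        have h3 := congrFun (congrFun h i) j
        rw [RingHom.mapMatrix_apply, Matrix.map_apply, Matrix.zero_apply] at h3
        rw [Matrix.zero_apply]
        exact (map_eq_zero_iff _ ε.symm.injective).1 h3
      · intro h
        rw [h, map_zero]
    have hφf : ∀ g, Multiplicative.toAdd (φ g) =
        Matrix.of fun i j => f (((ρ g : Matrix (Fin n) (Fin n) A) - 1) i j) := by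
      intro g
      rw [hφ]
      ext i j
      rw [RingHom.mapMatrix_apply, Matrix.map_apply, hφ', Matrix.of_apply, hf]
      dsimp only
      rw [← hent]
      rfl
    rw [← hinj]
    refine crit_solv (p := p) (k := k) hK φ ?_ ?_ ?_ V r ?_ hV hr g'
    · refine Subgroup.isOpen_mono (fun a ha => ?_) hφo'
      exact (hinj a).2 ha
    · intro P hP hnot τ hτ
      exact (hinj τ).2 (h1' P hP hnot τ hτ)
    · intro P hP hpP hk τ hτ σ hσ
      have h3 := h2' P hP hpP hk τ hτ σ hσ
      rw [hφ, hφ, ← RingHom.map_mul, ← RingHom.map_mul, ← RingHom.map_sub, h3]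
      ext i j
      rw [RingHom.mapMatrix_apply, Matrix.map_apply, Matrix.smul_apply, Matrix.smul_apply,
        RingHom.mapMatrix_apply, Matrix.map_apply, smul_eq_mul, smul_eq_mul, map_mul, map_natCast]
    · intro g
      rw [hφf]
      exact hT f hfF g

/-- **the final form** -/
theorem finalF {ρ : GF K →* GL (Fin n) A} (hpA : (p : A) ∈ maximalIdeal A)
    (hcts : ∀ N : ℕ, ∀ᶠ g in nhds (1 : GF K), MJ (maximalIdeal A ^ N)
      ((ρ g : Matrix (Fin n) (Fin n) A) - 1)) (hG : Good ρ) (hK : NoUr K p) {m : ℕ} (hm1 : 1 ≤ m)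
    (hur : ∀ P : Ideal (OO K), P.IsMaximal → (p : OO K) ∈ P → ∀ τ, InInertia P τ → ρ τ = 1)
    (hI : InCond p m ρ)
    (V : ℕ → Submodule (ResidueField A) (Matrix (Fin n) (Fin n) (ResidueField A))) (r : ℕ)
    (hV : ∀ i, ∀ x ∈ V i, ∀ y ∈ V i, x * y - y * x ∈ V (i + 1)) (hr : V r = ⊥)
    (hT : ∀ f : A → ResidueField A, Func (I0 ρ) f → ∀ g,
      (Matrix.of fun i j => f (((ρ g : Matrix (Fin n) (Fin n) A) - 1) i j)) ∈ V 0) :
    ((∀ a : A, (p : A) ^ (m + 1) * a = 0 → (p : A) ^ m * a = 0) → ∀ g, ρ g = 1) ∧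
    (2 < p ^ m → ∀ R : Finset ℕ, (∀ l ∈ R, l.Prime) → UrO R ρ → (Set.range ρ).Finite) := by
  have htor := main_torF hpA hcts hG hK hm1 hur hI V r hV hr hT
  have hcong0 : ∀ g, MJ (Ideal.span {(p : A) ^ m}) ((ρ g : Matrix (Fin n) (Fin n) A) - 1) := by
    refine cong_of_good hG _ fun P hP τ hτ => ?_
    intro i j
    rw [Ideal.mem_span_singleton]
    by_cases h2P : (p : OO K) ∈ P
    · rw [hur P hP h2P τ hτ, Units.val_one, sub_self]
      exact dvd_zero _
    · exact (hI P hP h2P τ hτ).1 m (Or.inl le_rfl) i j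
  constructor
  · intro hA g
    apply Units.ext
    rw [Units.val_one, ← sub_eq_zero]
    ext i j
    obtain ⟨b, hb⟩ := Ideal.mem_span_singleton.1 (hcong0 g i j)
    obtain ⟨e, he⟩ := htor g i j
    have he' : (p : A) ^ (m + e) * b = 0 := by
      rw [hb, Ideal.mem_bot] at he
      rw [pow_add, mul_comm ((p : A) ^ m), mul_assoc]
      exact he
    have hdesc : ∀ e : ℕ, (p : A) ^ (m + e) * b = 0 → (p : A) ^ m * b = 0 := by
      intro e
      induction e with
      | zero => intro h; simpa using h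
      | succ e ih =>
        intro h
        apply ih
        have h1 := hA (p ^ e * b) (by
          rw [← mul_assoc, ← pow_add]
          rw [show m + 1 + e = m + (e + 1) by ring]
          exact h)
        rw [← mul_assoc, ← pow_add] at h1
        exact h1
    rw [hb, Matrix.zero_apply]
    exact hdesc e he'
  · intro hpm R hR hurR
    have hR' : ∀ l ∈ R.erase p, l.Prime ∧ l ≠ p := fun l hl =>
      ⟨hR l (Finset.mem_of_mem_erase hl), Finset.ne_of_mem_erase hl⟩
    obtain ⟨T, hT1, hT2⟩ := exists_T hK (R.erase p) hR'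
    refine fin_imageK (p := p) hpA (m := m) hpm hT1 hT2 hcts ?_ ?_ htor
    · intro P hP hPS τ hτ
      by_cases h2P : (p : OO K) ∈ P
      · exact hur P hP h2P τ hτ
      · refine hurR P hP (fun l hl => ?_) τ hτ
        by_cases hl2 : l = p
        · rw [hl2]
          exact h2P
        · exact hPS l (Finset.mem_erase.2 ⟨hl2, hl⟩)
    · intro g
      choose b hb using fun i j => Ideal.mem_span_singleton.1 (hcong0 g i j)
      refine ⟨Matrix.of b, ?_⟩
      rw [← sub_eq_iff_eq_add']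
      ext i j
      rw [hb, Matrix.smul_apply, Matrix.of_apply, smul_eq_mul]

end

end Pool.Agent.T9h32.SV
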